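import Mathlib.RingTheory.MvPolynomial.Ideal
import Mathlib.RingTheory.MvPolynomial.Homogeneous
import Mathlib.RingTheory.Regular.RegularSequence
import Mathlib.RingTheory.Ideal.Quotient.Operations
import Mathlib.Data.ENat.Lattice
import Mathlib.Tactic

/-!
MP_d06a13_ag: the v-number of a squarefree monomial ideal can exceed its depth by any amount.

The Stanley-Reisner complex is the disjoint union of the boundaries of two simplices with `N + 1`
vertices each. It is disconnected, so the depth is `1`, while every face which lies in exactly one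
facet is a facet and has `N` elements, so the v-number is `N`.
-/

set_option autoImplicit false
set_option linter.unusedSectionVars false

universe u

namespace Pool.Agent.Results.MP_d06a13_ag.VNumberExceedsDepth

open MvPolynomial RingTheory.Sequence

/-- `I` is a squarefree monomial ideal of `K[x_1, …, x_n]`: a proper ideal which is generated by
squarefree monomials `∏ i ∈ s, x_i`. -/
def IsSquarefreeMonomialIdeal {K : Type u} [Field K] {n : ℕ}
    (I : Ideal (MvPolynomial (Fin n) K)) : Prop :=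
  I ≠ ⊤ ∧ ∃ S : Set (Finset (Fin n)),
    I = Ideal.span ((fun s : Finset (Fin n) => ∏ i ∈ s, (X i : MvPolynomial (Fin n) K)) '' S)

/-- The associated primes of `I`: the prime ideals of the form `(I : g)`. -/
def ass {K : Type u} [Field K] {n : ℕ} (I : Ideal (MvPolynomial (Fin n) K)) :
    Set (Ideal (MvPolynomial (Fin n) K)) :=
  {p | p.IsPrime ∧ ∃ g, ∀ h, h ∈ p ↔ h * g ∈ I}

/-- The v-number of `I`: the least degree `d` of a homogeneous polynomial `f` such that
`(I : f)` is an associated prime of `I`. -/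
noncomputable def vNumber {K : Type u} [Field K] {n : ℕ} (I : Ideal (MvPolynomial (Fin n) K)) : ℕ∞ :=
  ⨅ (d : ℕ) (_ : ∃ f : MvPolynomial (Fin n) K, f.IsHomogeneous d ∧
    ∃ p ∈ ass I, ∀ g, g ∈ p ↔ g * f ∈ I), (d : ℕ∞)

/-- The depth of `K[x_1, …, x_n] / I` with respect to the homogeneous maximal ideal
`(x_1, …, x_n)`: the supremum of the lengths of the regular sequences on `K[x_1, …, x_n] / I` whose
members lie in `(x_1, …, x_n)`. -/
noncomputable def depth {K : Type u} [Field K] {n : ℕ} (I : Ideal (MvPolynomial (Fin n) K)) : ℕ∞ :=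
  ⨆ (rs : List (MvPolynomial (Fin n) K))
    (_ : (∀ r ∈ rs, r ∈ Ideal.span (Set.range (X : Fin n → MvPolynomial (Fin n) K))) ∧
      IsRegular (MvPolynomial (Fin n) K ⧸ I) rs), (rs.length : ℕ∞)

section aux

variable {K : Type u} [Field K] {σ : Type} [Fintype σ] [DecidableEq σ]

/-- exponent vector of the squarefree monomial with support `s` -/
noncomputable def ind (s : Finset σ) : σ →₀ ℕ := ∑ i ∈ s, Finsupp.single i 1

lemma ind_apply (s : Finset σ) (i : σ) : ind s i = if i ∈ s then 1 else 0 := by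
  simp [ind, Finsupp.finsetSum_apply, Finsupp.single_apply]

lemma prod_X (s : Finset σ) : (∏ i ∈ s, (X i : MvPolynomial σ K)) = monomial (ind s) 1 := by
  rw [ind, monomial_sum_one]
  rfl

lemma ind_le (s : Finset σ) (m : σ →₀ ℕ) : ind s ≤ m ↔ s ⊆ m.support := by
  constructor
  · intro h i hi
    have := h i
    rw [ind_apply, if_pos hi] at this
    simp only [Finsupp.mem_support_iff]
    omega
  · intro h i
    rw [ind_apply]
    split_ifs with hi
    · have := h hi
      simp only [Finsupp.mem_support_iff] at this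
      omega
    · omega

/-- the ideal generated by the squarefree monomials with support in `S` -/
noncomputable def sqIdeal (K : Type u) [Field K] (S : Set (Finset σ)) : Ideal (MvPolynomial σ K) :=
  Ideal.span ((fun s : Finset σ => ∏ i ∈ s, (X i : MvPolynomial σ K)) '' S)

lemma mem_sqIdeal (S : Set (Finset σ)) (f : MvPolynomial σ K) :
    f ∈ sqIdeal K S ↔ ∀ m ∈ f.support, ∃ s ∈ S, s ⊆ m.support := by
  have : sqIdeal K S = Ideal.span ((fun s => monomial s (1 : K)) '' (ind '' S)) := by
    rw [sqIdeal, Set.image_image]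
    congr 1
    ext x
    simp only [Set.mem_image]
    constructor
    · rintro ⟨s, hs, rfl⟩
      exact ⟨s, hs, (prod_X s).symm⟩
    · rintro ⟨s, hs, rfl⟩
      exact ⟨s, hs, prod_X s⟩
  rw [this, mem_ideal_span_monomial_image]
  simp only [Set.mem_image, exists_exists_and_eq_and, ind_le]

/-- the ideal generated by the variables in `s` -/
noncomputable def varIdeal (K : Type u) [Field K] (s : Finset σ) : Ideal (MvPolynomial σ K) :=
  Ideal.span (X '' (s : Set σ))

lemma mem_varIdeal (s : Finset σ) (f : MvPolynomial σ K) :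
    f ∈ varIdeal K s ↔ ∀ m ∈ f.support, ∃ i ∈ s, i ∈ m.support := by
  rw [varIdeal, mem_ideal_span_X_image]
  simp

/-- kill the variables in `s` -/
noncomputable def kill (K : Type u) [Field K] (s : Finset σ) : MvPolynomial σ K →ₐ[K] MvPolynomial σ K :=
  aeval (fun i => if i ∈ s then 0 else X i)

lemma sub_kill_mem (s : Finset σ) (g : MvPolynomial σ K) : g - kill K s g ∈ varIdeal K s := by
  have h : (Ideal.Quotient.mkₐ K (varIdeal K s)).comp (kill K s) =
      Ideal.Quotient.mkₐ K (varIdeal K s) := by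
    apply MvPolynomial.algHom_ext
    intro i
    simp only [AlgHom.comp_apply, kill, aeval_X]
    split_ifs with hi
    · rw [map_zero]
      symm
      rw [Ideal.Quotient.mkₐ_eq_mk, Ideal.Quotient.eq_zero_iff_mem]
      exact Ideal.subset_span ⟨i, hi, rfl⟩
    · rfl
  have h2 := congrArg (fun φ => φ g) h
  simp only [AlgHom.comp_apply, Ideal.Quotient.mkₐ_eq_mk] at h2
  rw [← Ideal.Quotient.eq_zero_iff_mem, map_sub, h2, sub_self]

lemma mem_varIdeal_iff_kill (s : Finset σ) (g : MvPolynomial σ K) :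
    g ∈ varIdeal K s ↔ kill K s g = 0 := by
  constructor
  · intro h
    have : varIdeal K s ≤ RingHom.ker (kill K s) := by
      rw [varIdeal, Ideal.span_le]
      rintro _ ⟨i, hi, rfl⟩
      have hi' : i ∈ s := hi
      simp [RingHom.mem_ker, kill, hi']
    exact this h
  · intro h
    have := sub_kill_mem s g
    rwa [h, sub_zero] at this

lemma varIdeal_prime (s : Finset σ) : (varIdeal K s).IsPrime := by
  have : varIdeal K s = RingHom.ker (kill K s) := by
    ext g
    rw [mem_varIdeal_iff_kill, RingHom.mem_ker]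
  rw [this]
  exact RingHom.ker_isPrime _

/-- The nonfaces of the disjoint union of the boundaries of the simplices on `A` and `Aᶜ`. -/
def nf (A : Finset σ) : Set (Finset σ) :=
  {s | s = A ∨ s = Aᶜ ∨ ∃ a ∈ A, ∃ b ∈ Aᶜ, s = {a, b}}

/-- minimal vertex covers -/
def cov (A : Finset σ) : Set (Finset σ) :=
  {c | (∃ a ∈ A, c = insert a Aᶜ) ∨ (∃ b ∈ Aᶜ, c = insert b A)}

lemma mem_iff_forall_cov (A : Finset σ) (hA : A.Nonempty) (hB : Aᶜ.Nonempty)
    (f : MvPolynomial σ K) :
    f ∈ sqIdeal K (nf A) ↔ ∀ c ∈ cov A, f ∈ varIdeal K c := by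
  simp only [mem_sqIdeal, mem_varIdeal]
  constructor
  · rintro h c hc m hm
    obtain ⟨s, hs, hsm⟩ := h m hm
    rcases hc with ⟨a, ha, rfl⟩ | ⟨b, hb, rfl⟩
    · rcases hs with rfl | rfl | ⟨a', ha', b', hb', rfl⟩
      · exact ⟨a, Finset.mem_insert_self _ _, hsm ha⟩
      · obtain ⟨b, hb⟩ := hB
        exact ⟨b, Finset.mem_insert_of_mem hb, hsm hb⟩
      · exact ⟨b', Finset.mem_insert_of_mem hb', hsm (by simp)⟩
    · rcases hs with rfl | rfl | ⟨a', ha', b', hb', rfl⟩
      · obtain ⟨a, ha⟩ := hA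
        exact ⟨a, Finset.mem_insert_of_mem ha, hsm ha⟩
      · exact ⟨b, Finset.mem_insert_self _ _, hsm hb⟩
      · exact ⟨a', Finset.mem_insert_of_mem ha', hsm (by simp)⟩
  · intro h m hm
    by_cases h1 : A ⊆ m.support
    · exact ⟨A, Or.inl rfl, h1⟩
    · obtain ⟨a, ha, ham⟩ := Finset.not_subset.mp h1
      obtain ⟨i, hi, him⟩ := h _ (Or.inl ⟨a, ha, rfl⟩) m hm
      have hi' : i ∈ Aᶜ := by
        rcases Finset.mem_insert.mp hi with rfl | hi
        · exact absurd him ham
        · exact hi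
      by_cases h2 : Aᶜ ⊆ m.support
      · exact ⟨Aᶜ, Or.inr (Or.inl rfl), h2⟩
      · obtain ⟨b, hb, hbm⟩ := Finset.not_subset.mp h2
        obtain ⟨j, hj, hjm⟩ := h _ (Or.inr ⟨b, hb, rfl⟩) m hm
        have hj' : j ∈ A := by
          rcases Finset.mem_insert.mp hj with rfl | hj
          · exact absurd hjm hbm
          · exact hj
        refine ⟨{j, i}, Or.inr (Or.inr ⟨j, hj', i, hi', rfl⟩), ?_⟩
        intro x hx
        simp only [Finset.mem_insert, Finset.mem_singleton] at hx
        rcases hx with rfl | rfl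
        · exact hjm
        · exact him

lemma one_notMem (A : Finset σ) (hA : A.Nonempty) (hB : Aᶜ.Nonempty) :
    (1 : MvPolynomial σ K) ∉ sqIdeal K (nf A) := by
  intro h
  rw [mem_sqIdeal] at h
  obtain ⟨s, hs, hsm⟩ := h 0 (by simp)
  have hs0 : s = ∅ := by simpa using hsm
  rcases hs with h | h | ⟨a, -, b, -, h⟩
  · exact hA.ne_empty (h ▸ hs0)
  · exact hB.ne_empty (h ▸ hs0)
  · rw [hs0] at h
    exact (Finset.insert_ne_empty _ _ h.symm)

lemma X_mul_notMem (A : Finset σ) (hA : 2 ≤ A.card) (hB : 2 ≤ (Aᶜ : Finset σ).card)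
    (i : σ) (c : MvPolynomial σ K) (hc : constantCoeff c ≠ 0) :
    X i * c ∉ sqIdeal K (nf A) := by
  intro h
  rw [mem_sqIdeal] at h
  have hm : Finsupp.single i 1 ∈ (X i * c : MvPolynomial σ K).support := by
    rw [mem_support_iff]
    have := coeff_X_mul (0 : σ →₀ ℕ) i c
    rw [add_zero] at this
    rw [this]
    exact hc
  obtain ⟨s, hs, hsm⟩ := h _ hm
  have hsc : s.card ≤ 1 := by
    have h1 : (Finsupp.single i 1 : σ →₀ ℕ).support ⊆ {i} := Finsupp.support_single_subset
    have := Finset.card_le_card (hsm.trans h1)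
    simpa using this
  rcases hs with rfl | rfl | ⟨a, ha, b, hb, rfl⟩
  · omega
  · omega
  · have hab : a ≠ b := by
      rintro rfl
      exact (Finset.mem_compl.mp hb) ha
    rw [Finset.card_pair hab] at hsc
    omega

lemma mem_of_mem_inf (A : Finset σ) (f : MvPolynomial σ K)
    (h1 : f ∈ varIdeal K A) (h2 : f ∈ varIdeal K Aᶜ) : f ∈ sqIdeal K (nf A) := by
  rw [mem_varIdeal] at h1 h2
  rw [mem_sqIdeal]
  intro m hm
  obtain ⟨i, hi, him⟩ := h1 m hm
  obtain ⟨j, hj, hjm⟩ := h2 m hm
  refine ⟨{i, j}, Or.inr (Or.inr ⟨i, hi, j, hj, rfl⟩), ?_⟩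
  intro x hx
  simp only [Finset.mem_insert, Finset.mem_singleton] at hx
  rcases hx with rfl | rfl
  · exact him
  · exact hjm

lemma mul_mem_of (A : Finset σ) {f g : MvPolynomial σ K}
    (h1 : f ∈ varIdeal K A) (h2 : g ∈ varIdeal K Aᶜ) : f * g ∈ sqIdeal K (nf A) :=
  mem_of_mem_inf A _ (Ideal.mul_mem_right _ _ h1) (Ideal.mul_mem_left _ _ h2)

lemma kill_kill (A : Finset σ) (f : MvPolynomial σ K) :
    kill K A (kill K Aᶜ f) = C (constantCoeff f) := by
  have h : (kill K A).comp (kill K Aᶜ) = aeval (fun _ => 0) := by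
    apply MvPolynomial.algHom_ext
    intro i
    simp only [AlgHom.comp_apply, kill, aeval_X, Finset.mem_compl]
    split_ifs with hi
    · simp only [aeval_X, if_pos (not_not.mp (by simpa using hi))]
    · simp
  have h2 := congrArg (fun φ => φ f) h
  simp only [AlgHom.comp_apply] at h2
  rw [h2]
  exact aeval_zero f

lemma kill_kill' (A : Finset σ) (f : MvPolynomial σ K) :
    kill K Aᶜ (kill K A f) = C (constantCoeff f) := by
  have := kill_kill (K := K) Aᶜ f
  rwa [compl_compl] at this

lemma kill_mem (A : Finset σ) (f : MvPolynomial σ K) (hf : constantCoeff f = 0) :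
    kill K Aᶜ f ∈ varIdeal K A := by
  rw [mem_varIdeal_iff_kill, kill_kill, hf, map_zero]

lemma kill_mem' (A : Finset σ) (f : MvPolynomial σ K) (hf : constantCoeff f = 0) :
    kill K A f ∈ varIdeal K Aᶜ := by
  rw [mem_varIdeal_iff_kill, kill_kill', hf, map_zero]

lemma sub_sub_mem (A : Finset σ) (f : MvPolynomial σ K) (hf : constantCoeff f = 0) :
    f - kill K Aᶜ f - kill K A f ∈ sqIdeal K (nf A) := by
  apply mem_of_mem_inf
  · have h := sub_kill_mem A (f - kill K Aᶜ f)
    rwa [map_sub, kill_kill, hf, map_zero, sub_zero] at h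
  · rw [mem_varIdeal_iff_kill, map_sub, map_sub, kill_kill', hf, map_zero, sub_zero, ← map_sub,
      ← mem_varIdeal_iff_kill]
    exact sub_kill_mem _ _

lemma X_mem_varIdeal {A : Finset σ} {i : σ} (hi : i ∈ A) :
    (X i : MvPolynomial σ K) ∈ varIdeal K A :=
  Ideal.subset_span ⟨i, hi, rfl⟩

lemma no_two (A : Finset σ) (hA : 2 ≤ A.card) (hB : 2 ≤ (Aᶜ : Finset σ).card)
    (r₁ r₂ : MvPolynomial σ K) (h₁ : constantCoeff r₁ = 0) (h₂ : constantCoeff r₂ = 0)
    (reg₁ : ∀ g, r₁ * g ∈ sqIdeal K (nf A) → g ∈ sqIdeal K (nf A))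
    (reg₂ : ∀ g c, r₂ * g - r₁ * c ∈ sqIdeal K (nf A) → ∃ c', g - r₁ * c' ∈ sqIdeal K (nf A)) :
    False := by
  set I := sqIdeal K (nf A) with hI
  set a₁ := kill K Aᶜ r₁ with ha₁
  set b₁ := kill K A r₁ with hb₁
  set a₂ := kill K Aᶜ r₂ with ha₂
  set b₂ := kill K A r₂ with hb₂
  have e₁ : r₁ - a₁ - b₁ ∈ I := sub_sub_mem A r₁ h₁
  have e₂ : r₂ - a₂ - b₂ ∈ I := sub_sub_mem A r₂ h₂
  have ma₁ : a₁ ∈ varIdeal K A := kill_mem A r₁ h₁
  have ma₂ : a₂ ∈ varIdeal K A := kill_mem A r₂ h₂
  have mb₁ : b₁ ∈ varIdeal K Aᶜ := kill_mem' A r₁ h₁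
  have mb₂ : b₂ ∈ varIdeal K Aᶜ := kill_mem' A r₂ h₂
  have key : r₂ * a₁ - r₁ * a₂ ∈ I := by
    have t1 : a₁ * b₂ ∈ I := mul_mem_of A ma₁ mb₂
    have t2 : a₂ * b₁ ∈ I := mul_mem_of A ma₂ mb₁
    have : r₂ * a₁ - r₁ * a₂ = (r₂ - a₂ - b₂) * a₁ - (r₁ - a₁ - b₁) * a₂ + a₁ * b₂ - a₂ * b₁ := by
      ring
    rw [this]
    exact I.sub_mem (I.add_mem (I.sub_mem (I.mul_mem_right _ e₂) (I.mul_mem_right _ e₁)) t1) t2
  obtain ⟨c, hc⟩ := reg₂ a₁ a₂ key
  have hc' : a₁ * (1 - c) - b₁ * c ∈ I := by
    have : a₁ * (1 - c) - b₁ * c = (a₁ - r₁ * c) + (r₁ - a₁ - b₁) * c := by ring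
    rw [this]
    exact I.add_mem hc (I.mul_mem_right _ e₁)
  by_cases h : constantCoeff c = 1
  · obtain ⟨i, hi⟩ : (Aᶜ : Finset σ).Nonempty := Finset.card_pos.mp (by omega)
    refine X_mul_notMem A hA hB i c (by rw [h]; exact one_ne_zero) (reg₁ _ ?_)
    have t : a₁ * X i ∈ I := mul_mem_of A ma₁ (X_mem_varIdeal hi)
    have : r₁ * (X i * c) = (r₁ - a₁ - b₁) * (X i * c) + (a₁ * X i) * c
        + ((a₁ * X i) * (1 - c) - X i * (a₁ * (1 - c) - b₁ * c)) := by ring
    rw [this]
    exact I.add_mem (I.add_mem (I.mul_mem_right _ e₁) (I.mul_mem_right _ t))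
      (I.sub_mem (I.mul_mem_right _ t) (I.mul_mem_left _ hc'))
  · obtain ⟨i, hi⟩ : A.Nonempty := Finset.card_pos.mp (by omega)
    refine X_mul_notMem A hA hB i (1 - c) ?_ (reg₁ _ ?_)
    · rw [map_sub, map_one]
      exact fun h' => h (sub_eq_zero.mp h').symm
    have t : X i * b₁ ∈ I := mul_mem_of A (X_mem_varIdeal hi) mb₁
    have : r₁ * (X i * (1 - c)) = (r₁ - a₁ - b₁) * (X i * (1 - c)) + (X i * b₁) * (1 - c)
        + (X i * (a₁ * (1 - c) - b₁ * c) + (X i * b₁) * c) := by ring
    rw [this]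
    exact I.add_mem (I.add_mem (I.mul_mem_right _ e₁) (I.mul_mem_right _ t))
      (I.add_mem (I.mul_mem_left _ hc') (I.mul_mem_right _ t))

lemma sqIdeal_le_cov (A : Finset σ) (hA : A.Nonempty) (hB : Aᶜ.Nonempty) {c : Finset σ}
    (hc : c ∈ cov A) : sqIdeal K (nf A) ≤ varIdeal K c :=
  fun f hf => (mem_iff_forall_cov A hA hB f).mp hf c hc

lemma exists_notMem_cov (A : Finset σ) (hA : 2 ≤ A.card) (hB : 2 ≤ (Aᶜ : Finset σ).card)
    {c : Finset σ} (hc : c ∈ cov A) : ∃ i, i ∉ c := by
  rcases hc with ⟨a, ha, rfl⟩ | ⟨b, hb, rfl⟩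
  · obtain ⟨i, hi⟩ : (A.erase a).Nonempty := by
      rw [← Finset.card_pos, Finset.card_erase_of_mem ha]
      omega
    refine ⟨i, ?_⟩
    rw [Finset.mem_insert, Finset.mem_compl]
    rw [Finset.mem_erase] at hi
    tauto
  · obtain ⟨i, hi⟩ : (Aᶜ.erase b).Nonempty := by
      rw [← Finset.card_pos, Finset.card_erase_of_mem hb]
      omega
    refine ⟨i, ?_⟩
    rw [Finset.mem_insert]
    rw [Finset.mem_erase, Finset.mem_compl] at hi
    tauto

lemma sum_X_notMem {c : Finset σ} (hc : ∃ i, i ∉ c) :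
    (∑ i, X i : MvPolynomial σ K) ∉ varIdeal K c := by
  obtain ⟨i, hi⟩ := hc
  intro h
  have hle : varIdeal K c ≤ RingHom.ker (eval (fun j => if j = i then (1 : K) else 0)) := by
    rw [varIdeal, Ideal.span_le]
    rintro _ ⟨j, hj, rfl⟩
    have hji : j ≠ i := by
      rintro rfl
      exact hi hj
    simp [RingHom.mem_ker, hji]
  have := hle h
  rw [RingHom.mem_ker, map_sum] at this
  simp at this

lemma reg_one (A : Finset σ) (hA : 2 ≤ A.card) (hB : 2 ≤ (Aᶜ : Finset σ).card)
    (g : MvPolynomial σ K) (hg : (∑ i, X i) * g ∈ sqIdeal K (nf A)) : g ∈ sqIdeal K (nf A) := by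
  have hA' : A.Nonempty := Finset.card_pos.mp (by omega)
  have hB' : (Aᶜ : Finset σ).Nonempty := Finset.card_pos.mp (by omega)
  rw [mem_iff_forall_cov A hA' hB'] at hg ⊢
  intro c hc
  rcases (varIdeal_prime c).mem_or_mem (hg c hc) with h | h
  · exact absurd h (sum_X_notMem (exists_notMem_cov A hA hB hc))
  · exact h

lemma prod_mem_nf {A s : Finset σ} (hs : s ∈ nf A) :
    (∏ i ∈ s, (X i : MvPolynomial σ K)) ∈ sqIdeal K (nf A) :=
  Ideal.subset_span ⟨s, hs, rfl⟩

lemma exists_cov (A : Finset σ) (p : Ideal (MvPolynomial σ K)) (hp : p.IsPrime)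
    (hI : sqIdeal K (nf A) ≤ p) : ∃ c ∈ cov A, ∀ i ∈ c, (X i : MvPolynomial σ K) ∈ p := by
  by_cases h : ∀ a ∈ A, (X a : MvPolynomial σ K) ∈ p
  · have h1 : (∏ i ∈ Aᶜ, (X i : MvPolynomial σ K)) ∈ p := hI (prod_mem_nf (Or.inr (Or.inl rfl)))
    obtain ⟨b, hb, hbp⟩ := (hp.prod_mem_iff).mp h1
    refine ⟨insert b A, Or.inr ⟨b, hb, rfl⟩, ?_⟩
    intro i hi
    rcases Finset.mem_insert.mp hi with rfl | hi
    · exact hbp
    · exact h i hi
  · push Not at h
    obtain ⟨a₀, ha₀, hap⟩ := h
    have h1 : (∏ i ∈ A, (X i : MvPolynomial σ K)) ∈ p := hI (prod_mem_nf (Or.inl rfl))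
    obtain ⟨a, ha, hap'⟩ := (hp.prod_mem_iff).mp h1
    refine ⟨insert a Aᶜ, Or.inl ⟨a, ha, rfl⟩, ?_⟩
    intro i hi
    rcases Finset.mem_insert.mp hi with rfl | hi
    · exact hap'
    · have h2 : (X a₀ * X i : MvPolynomial σ K) ∈ sqIdeal K (nf A) :=
        mul_mem_of A (X_mem_varIdeal ha₀) (X_mem_varIdeal hi)
      exact (hp.mem_or_mem (hI h2)).resolve_left hap

lemma cov_not_subset (A : Finset σ) {c c' : Finset σ} (hc : c ∈ cov A) (hc' : c' ∈ cov A)
    (hA : 2 ≤ A.card) (hB : 2 ≤ (Aᶜ : Finset σ).card) (h : c ≠ c') : ∃ i ∈ c, i ∉ c' := by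
  by_contra hcon
  push Not at hcon
  have hsub : c ⊆ c' := hcon
  rcases hc with ⟨a, ha, rfl⟩ | ⟨b, hb, rfl⟩
  · rcases hc' with ⟨a', ha', rfl⟩ | ⟨b', hb', rfl⟩
    · have := hsub (Finset.mem_insert_self a _)
      rw [Finset.mem_insert, Finset.mem_compl] at this
      rcases this with rfl | h'
      · exact h rfl
      · exact h' ha
    · have h1 : Aᶜ ⊆ {b'} := by
        intro x hx
        have := hsub (Finset.mem_insert_of_mem hx)
        rw [Finset.mem_insert] at this
        rcases this with rfl | h'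
        · simp
        · exact absurd h' (Finset.mem_compl.mp hx)
      have := Finset.card_le_card h1
      rw [Finset.card_singleton] at this
      omega
  · rcases hc' with ⟨a', ha', rfl⟩ | ⟨b', hb', rfl⟩
    · have h1 : A ⊆ {a'} := by
        intro x hx
        have := hsub (Finset.mem_insert_of_mem hx)
        rw [Finset.mem_insert] at this
        rcases this with rfl | h'
        · simp
        · exact absurd hx (Finset.mem_compl.mp h')
      have := Finset.card_le_card h1
      rw [Finset.card_singleton] at this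
      omega
    · have := hsub (Finset.mem_insert_self b _)
      rw [Finset.mem_insert] at this
      rcases this with rfl | h'
      · exact h rfl
      · exact absurd h' (Finset.mem_compl.mp hb)

lemma v_lower (A : Finset σ) (N : ℕ) (hN : 1 ≤ N) (hA : A.card = N + 1)
    (hB : (Aᶜ : Finset σ).card = N + 1) (f : MvPolynomial σ K) (d : ℕ) (hf : f.IsHomogeneous d)
    (p : Ideal (MvPolynomial σ K)) (hp : p.IsPrime)
    (hpf : ∀ g, g ∈ p ↔ g * f ∈ sqIdeal K (nf A)) : N ≤ d := by
  have hA' : A.Nonempty := Finset.card_pos.mp (by omega)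
  have hB' : (Aᶜ : Finset σ).Nonempty := Finset.card_pos.mp (by omega)
  have hI : sqIdeal K (nf A) ≤ p := fun g hg => (hpf g).mpr (Ideal.mul_mem_right _ _ hg)
  obtain ⟨c, hc, hcp⟩ := exists_cov A p hp hI
  have hfI : f ∉ sqIdeal K (nf A) := by
    intro h
    apply hp.ne_top
    rw [Ideal.eq_top_iff_one, hpf, one_mul]
    exact h
  have hother : ∀ c' ∈ cov A, c' ≠ c → f ∈ varIdeal K c' := by
    intro c' hc' hne
    obtain ⟨i, hi, hic'⟩ := cov_not_subset A hc hc' (by omega) (by omega) hne.symm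
    have h1 : X i * f ∈ varIdeal K c' := sqIdeal_le_cov A hA' hB' hc' ((hpf _).mp (hcp i hi))
    rcases (varIdeal_prime c').mem_or_mem h1 with h | h
    · exfalso
      rw [mem_varIdeal] at h
      obtain ⟨j, hj, hjm⟩ := h (Finsupp.single i 1) (by simp [support_X])
      have : j = i := by
        have h2 : (Finsupp.single i 1 : σ →₀ ℕ).support ⊆ {i} := Finsupp.support_single_subset
        simpa using h2 hjm
      exact hic' (this ▸ hj)
    · exact h
  have hfc : f ∉ varIdeal K c := by
    intro h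
    apply hfI
    rw [mem_iff_forall_cov A hA' hB']
    intro c' hc'
    by_cases h' : c' = c
    · rw [h']
      exact h
    · exact hother c' hc' h'
  rw [mem_varIdeal] at hfc
  push Not at hfc
  obtain ⟨m, hm, hmc⟩ := hfc
  have hdeg : m.degree = d := by
    have := hf (mem_support_iff.mp hm)
    rwa [show (1 : σ → ℕ) = fun _ => 1 from rfl, ← Finsupp.degree_eq_weight_one] at this
  have hcard : m.support.card ≤ m.degree := by
    rw [Finsupp.degree_apply, Finset.card_eq_sum_ones]
    apply Finset.sum_le_sum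
    intro i hi
    have := Finsupp.mem_support_iff.mp hi
    omega
  have hmeet : ∀ c' ∈ cov A, c' ≠ c → ∃ i ∈ c', i ∈ m.support := fun c' hc' hne =>
    (mem_varIdeal c' f).mp (hother c' hc' hne) m hm
  rcases hc with ⟨a, ha, rfl⟩ | ⟨b, hb, rfl⟩
  · have hsub : A.erase a ⊆ m.support := by
      intro a' ha'
      rw [Finset.mem_erase] at ha'
      obtain ⟨i, hi, him⟩ := hmeet (insert a' Aᶜ) (Or.inl ⟨a', ha'.2, rfl⟩) (by
        intro h
        have : a' ∈ insert a Aᶜ := h ▸ Finset.mem_insert_self a' _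
        rw [Finset.mem_insert, Finset.mem_compl] at this
        tauto)
      rcases Finset.mem_insert.mp hi with rfl | hi
      · exact him
      · exact absurd him (hmc i (Finset.mem_insert_of_mem hi))
    have := Finset.card_le_card hsub
    rw [Finset.card_erase_of_mem ha] at this
    omega
  · have hsub : Aᶜ.erase b ⊆ m.support := by
      intro b' hb'
      rw [Finset.mem_erase] at hb'
      obtain ⟨i, hi, him⟩ := hmeet (insert b' A) (Or.inr ⟨b', hb'.2, rfl⟩) (by
        intro h
        have : b' ∈ insert b A := h ▸ Finset.mem_insert_self b' _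
        rw [Finset.mem_insert] at this
        rw [Finset.mem_compl] at hb'
        tauto)
      rcases Finset.mem_insert.mp hi with rfl | hi
      · exact him
      · exact absurd him (hmc i (Finset.mem_insert_of_mem hi))
    have := Finset.card_le_card hsub
    rw [Finset.card_erase_of_mem hb] at this
    omega

lemma v_upper (A : Finset σ) (N : ℕ) (hN : 1 ≤ N) (hA : A.card = N + 1)
    (hB : (Aᶜ : Finset σ).card = N + 1) : ∃ f : MvPolynomial σ K, f.IsHomogeneous N ∧
      ∃ p : Ideal (MvPolynomial σ K), p.IsPrime ∧ ∀ g, g ∈ p ↔ g * f ∈ sqIdeal K (nf A) := by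
  have hA' : A.Nonempty := Finset.card_pos.mp (by omega)
  have hB' : (Aᶜ : Finset σ).Nonempty := Finset.card_pos.mp (by omega)
  obtain ⟨a, ha⟩ := hA'
  have hcard : (A.erase a).card = N := by
    rw [Finset.card_erase_of_mem ha, hA]
    rfl
  refine ⟨∏ i ∈ A.erase a, X i, ?_, varIdeal K (insert a Aᶜ), varIdeal_prime _, ?_⟩
  · have := IsHomogeneous.prod (A.erase a) (fun i => (X i : MvPolynomial σ K)) (fun _ => 1)
      (fun i _ => isHomogeneous_X K i)
    simpa [hcard] using this
  · intro g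
    constructor
    · intro hg
      have hle : varIdeal K (insert a Aᶜ) ≤
          (sqIdeal K (nf A)).colon {(∏ i ∈ A.erase a, X i : MvPolynomial σ K)} := by
        rw [varIdeal, Ideal.span_le]
        rintro _ ⟨i, hi, rfl⟩
        rw [SetLike.mem_coe, Submodule.mem_colon_singleton, smul_eq_mul]
        rcases Finset.mem_insert.mp hi with rfl | hi
        · rw [Finset.mul_prod_erase A (fun i => (X i : MvPolynomial σ K)) ha]
          exact prod_mem_nf (Or.inl rfl)
        · rw [mul_comm]
          refine mul_mem_of A ?_ (X_mem_varIdeal hi)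
          obtain ⟨j, hj⟩ : (A.erase a).Nonempty := Finset.card_pos.mp (by omega)
          exact ((varIdeal_prime (K := K) A).prod_mem_iff).mpr
            ⟨j, hj, X_mem_varIdeal (Finset.mem_of_mem_erase hj)⟩
      have := hle hg
      rwa [Submodule.mem_colon_singleton, smul_eq_mul] at this
    · intro hg
      have h1 := sqIdeal_le_cov (K := K) A ⟨a, ha⟩ hB' (Or.inl ⟨a, ha, rfl⟩) hg
      rcases (varIdeal_prime (insert a Aᶜ)).mem_or_mem h1 with h | h
      · exact h
      · exfalso
        obtain ⟨j, hj, hjp⟩ := ((varIdeal_prime (K := K) (insert a Aᶜ)).prod_mem_iff).mp h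
        rw [mem_varIdeal] at hjp
        obtain ⟨k, hk, hkm⟩ := hjp (Finsupp.single j 1) (by simp [support_X])
        have hkj : k = j := by
          have h2 : (Finsupp.single j 1 : σ →₀ ℕ).support ⊆ {j} := Finsupp.support_single_subset
          simpa using h2 hkm
        subst hkj
        rw [Finset.mem_insert, Finset.mem_compl] at hk
        rw [Finset.mem_erase] at hj
        tauto

end aux

/-- The ideal of the disjoint union of the boundaries of two simplices with `N + 1` vertices. -/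
noncomputable def twoBoundaries (K : Type u) [Field K] (N : ℕ) :
    Ideal (MvPolynomial (Fin (N + 1 + (N + 1))) K) :=
  sqIdeal K (nf (Finset.univ.map (Fin.castAddEmb (N + 1))))

lemma card_A (N : ℕ) :
    (Finset.univ.map (Fin.castAddEmb (n := N + 1) (N + 1))).card = N + 1 := by
  simp

lemma card_B (N : ℕ) :
    ((Finset.univ.map (Fin.castAddEmb (n := N + 1) (N + 1)))ᶜ : Finset _).card = N + 1 := by
  rw [Finset.card_compl, card_A]
  simp

lemma constantCoeff_eq_zero_of_mem {K : Type u} [Field K] {n : ℕ} {r : MvPolynomial (Fin n) K}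
    (hr : r ∈ Ideal.span (Set.range (X : Fin n → MvPolynomial (Fin n) K))) :
    constantCoeff r = 0 := by
  have : Ideal.span (Set.range (X : Fin n → MvPolynomial (Fin n) K)) ≤
      RingHom.ker (constantCoeff : MvPolynomial (Fin n) K →+* K) := by
    rw [Ideal.span_le]
    rintro _ ⟨i, rfl⟩
    simp [RingHom.mem_ker]
  exact this hr

theorem depth_twoBoundaries (K : Type u) [Field K] (N : ℕ) (hN : 1 ≤ N) :
    depth (twoBoundaries K N) = 1 := by
  set A := (Finset.univ.map (Fin.castAddEmb (n := N + 1) (N + 1))) with hAdef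
  have hA : A.card = N + 1 := card_A N
  have hB : (Aᶜ : Finset _).card = N + 1 := card_B N
  have hI : twoBoundaries K N = sqIdeal K (nf A) := rfl
  apply le_antisymm
  · apply iSup₂_le
    rintro rs ⟨hrs, hreg⟩
    by_contra hcon
    match rs, hrs, hreg, hcon with
    | [], _, _, hcon => exact hcon (by simp)
    | [_], _, _, hcon => exact hcon (by simp)
    | r₁ :: r₂ :: rs, hrs, hreg, _ =>
      rw [isRegular_cons_iff, isRegular_cons_iff] at hreg
      obtain ⟨h1, h2, -⟩ := hreg
      refine no_two A (by omega) (by omega) r₁ r₂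
        (constantCoeff_eq_zero_of_mem (hrs r₁ (by simp)))
        (constantCoeff_eq_zero_of_mem (hrs r₂ (by simp))) ?_ ?_
      · intro g hg
        rw [← hI] at hg ⊢
        rw [← Ideal.Quotient.eq_zero_iff_mem] at hg ⊢
        apply h1
        simp only [smul_zero]
        rw [← hg]
        rfl
      · intro g c hg
        have h3 : r₂ • (Submodule.Quotient.mk (Ideal.Quotient.mk (twoBoundaries K N) g) :
            QuotSMulTop r₁ (MvPolynomial (Fin (N + 1 + (N + 1))) K ⧸ twoBoundaries K N)) =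
            r₂ • 0 := by
          rw [smul_zero, ← Submodule.Quotient.mk_smul, Submodule.Quotient.mk_eq_zero,
            Submodule.mem_smul_pointwise_iff_exists]
          refine ⟨Ideal.Quotient.mk _ c, trivial, ?_⟩
          rw [← hI] at hg
          have h4 := (Ideal.Quotient.eq (I := twoBoundaries K N)).mpr hg
          rw [map_mul, map_mul] at h4
          exact h4.symm
        have h5 := h2 h3
        rw [Submodule.Quotient.mk_eq_zero, Submodule.mem_smul_pointwise_iff_exists] at h5
        obtain ⟨c', -, hc'⟩ := h5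
        obtain ⟨c', rfl⟩ := Ideal.Quotient.mk_surjective c'
        refine ⟨c', ?_⟩
        rw [← hI]
        apply (Ideal.Quotient.eq (I := twoBoundaries K N)).mp
        rw [map_mul]
        exact hc'.symm
  · have hreg : IsRegular (MvPolynomial (Fin (N + 1 + (N + 1))) K ⧸ twoBoundaries K N)
        [(∑ i, X i : MvPolynomial (Fin (N + 1 + (N + 1))) K)] := by
      rw [isRegular_cons_iff]
      refine ⟨?_, ?_⟩
      · rw [isSMulRegular_iff_right_eq_zero_of_smul]
        intro x hx
        obtain ⟨g, rfl⟩ := Ideal.Quotient.mk_surjective x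
        rw [Ideal.Quotient.eq_zero_iff_mem, hI]
        apply reg_one A (by omega) (by omega)
        rw [← hI, ← Ideal.Quotient.eq_zero_iff_mem]
        exact hx
      · have : Nontrivial (QuotSMulTop (∑ i, X i : MvPolynomial (Fin (N + 1 + (N + 1))) K)
            (MvPolynomial (Fin (N + 1 + (N + 1))) K ⧸ twoBoundaries K N)) := by
          refine ⟨⟨Submodule.Quotient.mk (Ideal.Quotient.mk _ 1), 0, ?_⟩⟩
          rw [Ne, Submodule.Quotient.mk_eq_zero, Submodule.mem_smul_pointwise_iff_exists]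
          rintro ⟨y, -, hy⟩
          obtain ⟨y, rfl⟩ := Ideal.Quotient.mk_surjective y
          have h6 : (∑ i, X i) * y - 1 ∈ twoBoundaries K N :=
            (Ideal.Quotient.eq (I := twoBoundaries K N)).mp (by rw [map_mul]; exact hy)
          obtain ⟨a, ha⟩ : A.Nonempty := Finset.card_pos.mp (by omega)
          have h7 := sqIdeal_le_cov (K := K) A ⟨a, ha⟩ (Finset.card_pos.mp (by omega))
            (Or.inl ⟨a, ha, rfl⟩) h6
          have h8 : varIdeal K (insert a Aᶜ) ≤
              RingHom.ker (constantCoeff : MvPolynomial (Fin (N + 1 + (N + 1))) K →+* K) := by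
            rw [varIdeal, Ideal.span_le]
            rintro _ ⟨i, hi, rfl⟩
            simp [RingHom.mem_ker]
          have h9 := h8 h7
          rw [RingHom.mem_ker, map_sub, map_mul, map_sum, map_one] at h9
          simp at h9
        exact IsRegular.nil _ _
    have hmem : ∀ r ∈ [(∑ i, X i : MvPolynomial (Fin (N + 1 + (N + 1))) K)],
        r ∈ Ideal.span (Set.range (X : _ → MvPolynomial (Fin (N + 1 + (N + 1))) K)) := by
      intro r hr
      rw [List.mem_singleton] at hr
      rw [hr]
      exact Ideal.sum_mem _ (fun i _ => Ideal.subset_span ⟨i, rfl⟩)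
    refine le_trans ?_ (le_iSup₂ (f := fun (rs : List (MvPolynomial (Fin (N + 1 + (N + 1))) K))
      (_ : (∀ r ∈ rs, r ∈ Ideal.span (Set.range (X : _ → MvPolynomial (Fin (N + 1 + (N + 1))) K))) ∧
        IsRegular (MvPolynomial (Fin (N + 1 + (N + 1))) K ⧸ twoBoundaries K N) rs) =>
      (rs.length : ℕ∞)) _ ⟨hmem, hreg⟩)
    simp

theorem vNumber_twoBoundaries (K : Type u) [Field K] (N : ℕ) (hN : 1 ≤ N) :
    vNumber (twoBoundaries K N) = N := by
  set A := (Finset.univ.map (Fin.castAddEmb (n := N + 1) (N + 1))) with hAdef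
  have hA : A.card = N + 1 := card_A N
  have hB : (Aᶜ : Finset _).card = N + 1 := card_B N
  have hI : twoBoundaries K N = sqIdeal K (nf A) := rfl
  apply le_antisymm
  · obtain ⟨f, hf, p, hp, hpf⟩ := v_upper (K := K) A N hN hA hB
    exact iInf₂_le N ⟨f, hf, p, ⟨hp, f, fun h => by rw [hI]; exact hpf h⟩,
      fun g => by rw [hI]; exact hpf g⟩
  · apply le_iInf₂
    rintro d ⟨f, hf, p, ⟨hp, -⟩, hpf⟩
    rw [hI] at hpf
    exact_mod_cast v_lower A N hN hA hB f d hf p hp hpf

/-- For every field `K` and every `N ≥ 2` there is a squarefree monomial ideal in a polynomial ring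
over `K` with depth `1` and v-number `N`. So `v(I) ≤ depth(R/I)` fails for squarefree monomial
ideals over every field, and the difference can be arbitrarily large. -/
theorem result (K : Type u) [Field K] (N : ℕ) (hN : 2 ≤ N) :
    ∃ (n : ℕ) (I : Ideal (MvPolynomial (Fin n) K)),
      IsSquarefreeMonomialIdeal I ∧ depth I = 1 ∧ vNumber I = N := by
  refine ⟨_, twoBoundaries K N, ⟨?_, _, rfl⟩, depth_twoBoundaries K N (by omega),
    vNumber_twoBoundaries K N (by omega)⟩
  intro h
  have h1 : (1 : MvPolynomial (Fin (N + 1 + (N + 1))) K) ∈ twoBoundaries K N := by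
    rw [h]
    trivial
  exact one_notMem _ (Finset.card_pos.mp (by rw [card_A]; omega))
    (Finset.card_pos.mp (by rw [card_B]; omega)) h1

end Pool.Agent.Results.MP_d06a13_ag.VNumberExceedsDepth
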